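import Pool.Agent.Helper17.OD.GoalsGM

/-!
Project OD (MP_064283_lc), packet EL5: (M5) is inherited.
-/

set_option autoImplicit false

namespace Pool.Agent.Helper17.OD.PkEL5

open Set

lemma tt_id : TT (fun e => e) := ⟨.nat 0, fun _ => by simp [tval]⟩

lemma tt_fst {t : T → T} (h : TT t) : TT (fun e => (t e).fst) := by
  obtain ⟨c, hc⟩ := h
  exact ⟨.pr (.nat 0) c, fun e => by simp [tval, hc]⟩

lemma tt_snd {t : T → T} (h : TT t) : TT (fun e => (t e).snd) := by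
  obtain ⟨c, hc⟩ := h
  exact ⟨.pr (.nat 1) c, fun e => by simp [tval, hc]⟩

lemma tt_pr {s t : T → T} (hs : TT s) (ht : TT t) : TT (fun e => .pr (s e) (t e)) := by
  obtain ⟨c, hc⟩ := hs
  obtain ⟨d, hd⟩ := ht
  exact ⟨.pr (.nat 2) (.pr c d), fun e => by simp [tval, hc, hd]⟩

/-- `x ∈ dec t` with the components of `t`. -/
def MemT (x t : T) : Prop :=
  t = .pr t.fst (.pr t.snd.fst t.snd.snd) ∧ TruT t.fst t.snd.fst (.pr x t.snd.snd)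

lemma memT_iff (x t : T) : MemT x t ↔ x ∈ dec t := by
  constructor
  · rintro ⟨h1, b, c, h2, h3, h4, h5⟩
    rw [pr_mem] at h4
    refine ⟨b, c, t.snd.snd, ?_, h4.2, h4.1, h5⟩
    rw [← h2, ← h3]
    exact h1
  · rintro ⟨b, c, v, h1, h2, h3, h4⟩
    subst h1
    exact ⟨rfl, b, c, rfl, rfl, pr_mem.2 ⟨h3, h2⟩, h4⟩

lemma mem_dec_D {x t : T} {a : O} (ht : t ∈ D (Iio a)) (hx : x ∈ dec t) : x ∈ D (Iio a) := by
  obtain ⟨b, c, v, rfl, h2, h3, h4⟩ := hx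
  have hb : b < a := by
    have := (pr_mem.1 ht).1
    exact ord_mem.1 this
  exact D_mono (Iio_subset_Iio hb.le) h3

/-- The property (M5), as a property of `e = ord κ` at level `a`. -/
def PP (a : O) (e : T) : Prop :=
  ∀ d ∈ D (Iio a), (d.IsOrd ∧ d.lt e) → ∃ b ∈ D (Iio a), (b.IsOrd ∧ b.lt e) ∧
    ∀ t ∈ D (Iio a), (∀ x ∈ D (Iio a), MemT x t → InD d x) →
      ∃ s ∈ D (Iio a), InD b s ∧ ∀ x ∈ D (Iio a), (MemT x t ↔ MemT x s)

lemma tdef_memT (h1 : G_TDC) {x t : T → T} (hx : TT x) (ht : TT t) :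
    TDef (fun _ e => MemT (x e) (t e)) := by
  obtain ⟨hEq, -, -, -, -, -, hAnd, -, -, -, -, -, -, hTruT, -⟩ := h1
  exact hAnd (fun _ e => t e = .pr (t e).fst (.pr (t e).snd.fst (t e).snd.snd))
    (fun _ e => TruT (t e).fst (t e).snd.fst (.pr (x e) (t e).snd.snd))
    (hEq t _ ht (tt_pr (tt_fst ht) (tt_pr (tt_fst (tt_snd ht)) (tt_snd (tt_snd ht)))))
    (hTruT _ _ _ (tt_fst ht) (tt_fst (tt_snd ht)) (tt_pr hx (tt_snd (tt_snd ht))))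

lemma tdef_PP (h1 : G_TDC) (h2 : G_TDC2) : TDef PP := by
  have hM : ∀ {x t : T → T}, TT x → TT t → TDef (fun _ e => MemT (x e) (t e)) :=
    fun hx ht => tdef_memT h1 hx ht
  obtain ⟨-, hLt, hOrd, -, -, -, hAnd, -, hImp, hIff, hEx, hAll, -, -, -⟩ := h1
  obtain ⟨hInD, -⟩ := h2
  have T1 : TT (fun e => e.fst) := tt_fst tt_id
  have T2 : TT (fun e => e.snd) := tt_snd tt_id
  -- environment: p3 = pr t (pr b (pr d e))
  have A1 : TDef (fun a p => ∀ x ∈ D (Iio a), MemT x p.fst → InD p.snd.snd.fst x) :=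
    hAll (fun a p x => MemT x p.fst → InD p.snd.snd.fst x)
      (hImp (fun _ p => MemT p.fst p.snd.fst) (fun _ p => InD p.snd.snd.snd.fst p.fst)
        (hM T1 (tt_fst T2)) (hInD _ _ (tt_fst (tt_snd (tt_snd T2))) T1))
  -- environment: p4 = pr s (pr t (pr b (pr d e)))
  have A2 : TDef (fun a p => ∀ x ∈ D (Iio a), (MemT x p.snd.fst ↔ MemT x p.fst)) :=
    hAll (fun a p x => (MemT x p.snd.fst ↔ MemT x p.fst))
      (hIff (fun _ p => MemT p.fst p.snd.snd.fst) (fun _ p => MemT p.fst p.snd.fst)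
        (hM T1 (tt_fst (tt_snd T2))) (hM T1 (tt_fst T2)))
  have A3 : TDef (fun a p => InD p.snd.snd.fst p.fst ∧
      ∀ x ∈ D (Iio a), (MemT x p.snd.fst ↔ MemT x p.fst)) :=
    hAnd (fun _ p => InD p.snd.snd.fst p.fst) _ (hInD _ _ (tt_fst (tt_snd T2)) T1) A2
  -- environment: p3
  have A4 : TDef (fun a p => ∃ s ∈ D (Iio a), InD p.snd.fst s ∧
      ∀ x ∈ D (Iio a), (MemT x p.fst ↔ MemT x s)) :=
    hEx (fun a p s => InD p.snd.fst s ∧ ∀ x ∈ D (Iio a), (MemT x p.fst ↔ MemT x s)) A3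
  have A5 := hImp _ _ A1 A4
  -- environment: p2 = pr b (pr d e)
  have A6 : TDef (fun a p => ∀ t ∈ D (Iio a), (∀ x ∈ D (Iio a), MemT x t → InD p.snd.fst x) →
      ∃ s ∈ D (Iio a), InD p.fst s ∧ ∀ x ∈ D (Iio a), (MemT x t ↔ MemT x s)) :=
    hAll (fun a p t => (∀ x ∈ D (Iio a), MemT x t → InD p.snd.fst x) →
      ∃ s ∈ D (Iio a), InD p.fst s ∧ ∀ x ∈ D (Iio a), (MemT x t ↔ MemT x s)) A5
  have A7 : TDef (fun _ p => p.fst.IsOrd ∧ p.fst.lt p.snd.snd) :=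
    hAnd (fun _ p => p.fst.IsOrd) (fun _ p => p.fst.lt p.snd.snd) (hOrd _ T1)
      (hLt _ _ T1 (tt_snd T2))
  have A8 := hAnd _ _ A7 A6
  -- environment: p1 = pr d e
  have A9 : TDef (fun a p => ∃ b ∈ D (Iio a), (b.IsOrd ∧ b.lt p.snd) ∧
      ∀ t ∈ D (Iio a), (∀ x ∈ D (Iio a), MemT x t → InD p.fst x) →
      ∃ s ∈ D (Iio a), InD b s ∧ ∀ x ∈ D (Iio a), (MemT x t ↔ MemT x s)) :=
    hEx (fun a p b => (b.IsOrd ∧ b.lt p.snd) ∧
      ∀ t ∈ D (Iio a), (∀ x ∈ D (Iio a), MemT x t → InD p.fst x) →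
      ∃ s ∈ D (Iio a), InD b s ∧ ∀ x ∈ D (Iio a), (MemT x t ↔ MemT x s)) A8
  have A10 : TDef (fun _ p => p.fst.IsOrd ∧ p.fst.lt p.snd) :=
    hAnd (fun _ p => p.fst.IsOrd) (fun _ p => p.fst.lt p.snd) (hOrd _ T1) (hLt _ _ T1 T2)
  exact hAll (fun a e d => (d.IsOrd ∧ d.lt e) → ∃ b ∈ D (Iio a), (b.IsOrd ∧ b.lt e) ∧
    ∀ t ∈ D (Iio a), (∀ x ∈ D (Iio a), MemT x t → InD d x) →
      ∃ s ∈ D (Iio a), InD b s ∧ ∀ x ∈ D (Iio a), (MemT x t ↔ MemT x s)) (hImp _ _ A10 A9)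

lemma PP_iff {a κ : O} (hκ : κ < a) : PP a (.ord κ) ↔
    ∀ d < κ, ∃ b < κ, ∀ t ∈ D (Iio a), dec t ⊆ D (Iio d) → ∃ s ∈ D (Iio b), dec t = dec s := by
  constructor
  · intro h d hd
    obtain ⟨b', -, ⟨hb2, hb3⟩, hb4⟩ := h (.ord d) (ord_mem.2 (hd.trans hκ)) ⟨trivial, hd⟩
    obtain ⟨b, rfl⟩ : ∃ b, b' = Tr.ord b := by
      cases b' with
      | ord b => exact ⟨b, rfl⟩
      | nat n => exact absurd hb2 (by simp [Tr.IsOrd])
      | pr s t => exact absurd hb2 (by simp [Tr.IsOrd])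
    have hb : b < κ := hb3
    refine ⟨b, hb, fun t ht hsub => ?_⟩
    obtain ⟨s, hs1, ⟨b1, hb1, hs2⟩, hs3⟩ := hb4 t ht fun x _ hx =>
      ⟨d, rfl, hsub ((memT_iff x t).1 hx)⟩
    obtain rfl : b = b1 := by simpa using hb1
    refine ⟨s, hs2, ?_⟩
    ext x
    constructor
    · intro hx
      exact (memT_iff x s).1 ((hs3 x (mem_dec_D ht hx)).1 ((memT_iff x t).2 hx))
    · intro hx
      exact (memT_iff x t).1 ((hs3 x (mem_dec_D hs1 hx)).2 ((memT_iff x s).2 hx))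
  · rintro h d' - ⟨hd2, hd3⟩
    obtain ⟨d, rfl⟩ : ∃ d, d' = Tr.ord d := by
      cases d' with
      | ord b => exact ⟨b, rfl⟩
      | nat n => exact absurd hd2 (by simp [Tr.IsOrd])
      | pr s t => exact absurd hd2 (by simp [Tr.IsOrd])
    have hd : d < κ := hd3
    obtain ⟨b, hb, h2⟩ := h d hd
    refine ⟨.ord b, ord_mem.2 (hb.trans hκ), ⟨trivial, hb⟩, fun t ht hsub => ?_⟩
    obtain ⟨s, hs1, hs2⟩ := h2 t ht fun x hx => by
      obtain ⟨d1, hd1, hx1⟩ := hsub x (mem_dec_D ht hx) ((memT_iff x t).2 hx)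
      obtain rfl : d = d1 := by simpa using hd1
      exact hx1
    refine ⟨s, D_mono (Iio_subset_Iio (hb.trans hκ).le) hs1, ⟨b, rfl, hs1⟩, fun x _ => ?_⟩
    rw [memT_iff, memT_iff, hs2]

/-- Packet EL5. -/
theorem thm (h1 : G_TDC) (h2 : G_TDC2) : G_EL5 := by
  intro w₀ κ₀ θ w κ γ f hE _ _ h
  have hκ : κ < γ := hE.hk.1
  have hκ₀ : κ₀ < θ := by
    rw [← hE.hk.2]
    exact hE.rng κ hκ
  obtain ⟨c, hc⟩ := tdef_PP h1 h2
  have a1 : PP θ (.ord κ₀) := (PP_iff hκ₀).2 h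
  have a2 := (hc θ (.ord κ₀) (ord_mem.2 hκ₀)).2 a1
  have a3 : (Tr.ord κ : T).map f = .ord κ₀ := by
    simp only [Tr.map, hE.hk.2]
  rw [← a3] at a2
  have a4 := (hE.tru c (.ord κ) (ord_mem.2 hκ)).2 a2
  exact (PP_iff hκ).1 ((hc γ (.ord κ) (ord_mem.2 hκ)).1 a4)

end Pool.Agent.Helper17.OD.PkEL5
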